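import Pool.Agent.helper4.NF.SpecA

/-!
# Project nf, module OFC
-/

set_option autoImplicit false

open Complex MeasureTheory

namespace Pool.Agent.NF

open Pool.Agent.helper84.DM Pool.Agent.helper78.ED Pool.Agent.DH Pool.Agent.ZD

theorem OFC_kap_cont : Continuous kap := by
  unfold kap
  refine continuous_const.div (by fun_prop) fun x => ?_
  positivity

theorem OFC_kap_nonneg (x : ℝ) : 0 ≤ kap x := by
  unfold kap
  positivity

theorem OFC_kap_mono {c l z : ℝ} (hl : 0 ≤ l) (hc : l ≤ c) : kap (c * z) ≤ kap (l * z) := by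
  unfold kap
  apply one_div_le_one_div_of_le (by positivity)
  have h1 : l ^ 2 ≤ c ^ 2 := pow_le_pow_left₀ hl hc 2
  have h2 : 0 ≤ z ^ 2 := sq_nonneg z
  rw [mul_pow, mul_pow]
  nlinarith

theorem OFC_xf_cont (W : Finset ℝ) (f : ℝ → ℂ) : Continuous (xf W f) := by
  unfold xf ex
  refine continuous_finsetSum _ fun t _ => continuous_const.mul ?_
  exact Complex.continuous_exp.comp
    ((Complex.continuous_ofReal.comp (continuous_const.mul continuous_id)).mul continuous_const)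

theorem OFC_KB_cont (T X X₀ : ℝ) (M M₀ NQ : ℕ) :
    Continuous (Function.uncurry (KB T X X₀ M M₀ NQ)) := by
  unfold KB Function.uncurry
  refine continuous_finsetSum _ fun n _ => continuous_finsetSum _ fun n' _ =>
    continuous_finsetSum _ fun m₁ _ => continuous_finsetSum _ fun m₂ _ =>
    continuous_finsetSum _ fun m₃ _ => ?_
  refine Continuous.mul (by fun_prop) (OFC_kap_cont.comp ?_)
  fun_prop

/-- The kernel after the Gaussian average, in terms of `s` and `k`. -/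
theorem OFC_pt (X₀ : ℝ) (NP N n n' : ℕ) (m₁ m₂ m₃ : ℤ) (a : ℝ) (hN : 1 ≤ N) (hX : 0 < X₀)
    (hn' : n' ∈ Finset.Ioc N (4 * N)) :
    kap ((NP : ℝ) * X₀ * Real.exp a * ((m₁ : ℝ) - m₂ * ((n : ℝ) / n')) + X₀ * m₃) ≤
      kap (X₀ / (4 * N) * ((NP : ℝ) * Real.exp a * ((m₁ * n' - m₂ * n : ℤ) : ℝ) +
        ((m₃ * n' : ℤ) : ℝ))) := by
  rw [Finset.mem_Ioc] at hn'
  have hn0 : 0 < (n' : ℝ) := by
    have : 0 < n' := by omega
    exact_mod_cast this
  have hn4 : (n' : ℝ) ≤ 4 * N := by exact_mod_cast hn'.2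
  have hN0 : (0 : ℝ) < N := by exact_mod_cast hN
  have e1 : (NP : ℝ) * X₀ * Real.exp a * ((m₁ : ℝ) - m₂ * ((n : ℝ) / n')) + X₀ * m₃ =
      X₀ / n' * ((NP : ℝ) * Real.exp a * ((m₁ * n' - m₂ * n : ℤ) : ℝ) + ((m₃ * n' : ℤ) : ℝ)) := by
    push_cast
    field_simp
  rw [e1]
  exact OFC_kap_mono (by positivity) (div_le_div_of_nonneg_left hX.le hn0 hn4)

theorem OFC_real (C1 C2 C3 C4 C5 T E D X X₀ M N NP l Z Y J : ℝ) (h1 : 0 ≤ C1) (h2 : 0 ≤ C2)
    (h3 : 0 ≤ C3) (h4 : 0 ≤ C4) (h5 : 0 ≤ C5) (hT : 0 < T) (hX : 0 < X₀) (hM : 0 < M)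
    (hN : 0 < N) (hNP : 0 < NP) (hZ : 0 ≤ Z) (hY : 0 ≤ Y)
    (hJ : J ≤ C2 * E ^ 2 / T * (2 * M * D ^ 2) * ((1 + l) ^ 2 *
      (16 * C3 * C5 * Z + 8 * C4 * (N / (X₀ * NP)) * Y))) :
    C1 * T * X ^ 2 * X₀ * J ≤ 2 * C1 * C2 * (16 * C3 * C5 + 8 * C4) * E ^ 2 * D ^ 2 *
      (1 + l) ^ 2 * (X ^ 2 * M) * (X₀ * Z + N / NP * Y) := by
  have e3 : C1 * T * X ^ 2 * X₀ * (C2 * E ^ 2 / T * (2 * M * D ^ 2) * ((1 + l) ^ 2 *
      (16 * C3 * C5 * Z + 8 * C4 * (N / (X₀ * NP)) * Y))) =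
      2 * C1 * C2 * E ^ 2 * D ^ 2 * (1 + l) ^ 2 * (X ^ 2 * M) *
        (16 * C3 * C5 * (X₀ * Z) + 8 * C4 * (N / NP * Y)) := by
    field_simp
  have h7 : 16 * C3 * C5 * (X₀ * Z) + 8 * C4 * (N / NP * Y) ≤
      (16 * C3 * C5 + 8 * C4) * (X₀ * Z + N / NP * Y) := by
    have p1 : 0 ≤ X₀ * Z := by positivity
    have p2 : 0 ≤ N / NP * Y := by positivity
    have p3 : 0 ≤ C3 * C5 := by positivity
    have p4 : 0 ≤ C3 * C5 * (N / NP * Y) := by positivity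
    have p5 : 0 ≤ C4 * (X₀ * Z) := by positivity
    linarith
  calc C1 * T * X ^ 2 * X₀ * J ≤ _ := mul_le_mul_of_nonneg_left hJ (by positivity)
    _ = _ := e3
    _ ≤ 2 * C1 * C2 * E ^ 2 * D ^ 2 * (1 + l) ^ 2 * (X ^ 2 * M) *
        ((16 * C3 * C5 + 8 * C4) * (X₀ * Z + N / NP * Y)) :=
        mul_le_mul_of_nonneg_left h7 (by positivity)
    _ = _ := by ring

/-- OFC: the off-diagonal terms. -/
theorem OFC (h1 : OFA_stmt) (h2 : OFB_stmt) (h3 : RGM_stmt) (h4 : FAR_stmt) (h5 : NRR_stmt)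
    (h6 : QZC_stmt) : OFC_stmt := by
  intro g hg
  obtain ⟨C1, hC1, H1⟩ := h1 g hg
  obtain ⟨C2, hC2, H2⟩ := h2
  obtain ⟨C3, hC3, H3⟩ := h4
  obtain ⟨C4, hC4, H4⟩ := h5
  obtain ⟨C5, hC5, H5⟩ := h6 5 (by norm_num)
  refine ⟨2 * C1 * C2 * (16 * C3 * C5 + 8 * C4), by positivity, ?_⟩
  intro T E X₀ D NP N M M₀ W f b Y hT hE hNP hN hM hNX hXM hW hb hD hY hYr
  have hT0 : 0 < T := by linarith
  have hNR : (1 : ℝ) ≤ N := by exact_mod_cast hN
  have hMR : (1 : ℝ) ≤ M := by exact_mod_cast hM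
  have hNPR : (1 : ℝ) ≤ NP := by exact_mod_cast hNP
  have hX0 : 0 < X₀ := by linarith
  set X : ℝ := (NP : ℝ) * X₀ with hX
  have hXpos : 0 < X := by positivity
  set Λ : ℝ := X₀ / (4 * N) with hΛ
  have hΛpos : 0 < Λ := by positivity
  set h : ℝ → ℝ := fun a => ‖xf W f a‖ ^ 2 with hh
  have hhc : Continuous h := (OFC_xf_cont W f).norm.pow 2
  have hh0 : ∀ x, 0 ≤ h x := fun x => by positivity
  set S : ℕ := 8 * M * N with hS
  set K : ℕ := 4 * M₀ * N with hK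
  have hS1 : 1 ≤ S := by
    rw [hS]
    exact Nat.one_le_iff_ne_zero.2 (by positivity)
  have hSR : ((S : ℕ) : ℝ) = 8 * M * N := by rw [hS]; push_cast; ring
  have hlog : 0 ≤ Real.log S := Real.log_nonneg (by exact_mod_cast hS1)
  have hSep : ∀ t ∈ W, ∀ t' ∈ W, t ≠ t' → 1 ≤ |t - t'| := by
    intro t ht t' ht' hne
    have := hW.2 t ht t' ht' hne
    rwa [Real.rpow_zero] at this
  -- the sum of the kernels
  set F : ℝ → ℤ → ℤ → ℝ := fun a s k => kap (Λ * ((NP : ℝ) * Real.exp a * s + k)) with hF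
  have hFc : ∀ s k : ℤ, Continuous fun a => h a * F a s k := by
    intro s k
    refine hhc.mul (OFC_kap_cont.comp ?_)
    fun_prop
  have hpt : ∀ a ∈ Set.Icc (-5 : ℝ) 5, (h a * ∫ b' in (-5 : ℝ)..5, KB T X X₀ M M₀ N a b') ≤
      C2 * E ^ 2 / T * (2 * M * D ^ 2) * ∑ s ∈ Finset.Icc (-(S : ℤ)) S, ∑ k ∈ MM K,
        h a * F a s k := by
    intro a ha
    have k1 := H2 T E X X₀ M M₀ N a hT hE hXpos.le hN hXM (abs_le.2 ha)
    have k2 : ∑ n ∈ Finset.Ioc N (4 * N), ∑ n' ∈ Finset.Ioc N (4 * N),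
        ∑ m₁ ∈ MM M, ∑ m₂ ∈ MM M, ∑ m₃ ∈ MM M₀,
          kap (X * Real.exp a * ((m₁ : ℝ) - m₂ * ((n : ℝ) / n')) + X₀ * m₃) ≤
        ∑ n ∈ Finset.Ioc N (4 * N), ∑ n' ∈ Finset.Ioc N (4 * N),
        ∑ m₁ ∈ MM M, ∑ m₂ ∈ MM M, ∑ m₃ ∈ MM M₀, F a (m₁ * n' - m₂ * n) (m₃ * n') := by
      refine Finset.sum_le_sum fun n _ => Finset.sum_le_sum fun n' hn' =>
        Finset.sum_le_sum fun m₁ _ => Finset.sum_le_sum fun m₂ _ =>
        Finset.sum_le_sum fun m₃ _ => ?_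
      exact OFC_pt X₀ NP N n n' m₁ m₂ m₃ a hN hX0 hn'
    have k3 := h3 M M₀ N D (F a) (fun s k => OFC_kap_nonneg _) hD
    have e1 : Finset.Icc (-(8 * (M : ℤ) * N)) (8 * M * N) = Finset.Icc (-(S : ℤ)) S := by
      rw [hS]
      push_cast
      rfl
    rw [e1] at k3
    have k4 : ∫ b' in (-5 : ℝ)..5, KB T X X₀ M M₀ N a b' ≤ C2 * E ^ 2 / T *
        (2 * M * D ^ 2 * ∑ s ∈ Finset.Icc (-(S : ℤ)) S, ∑ k ∈ MM K, F a s k) := by
      refine k1.trans (mul_le_mul_of_nonneg_left (k2.trans k3) (by positivity))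
    calc h a * ∫ b' in (-5 : ℝ)..5, KB T X X₀ M M₀ N a b'
        ≤ h a * (C2 * E ^ 2 / T *
          (2 * M * D ^ 2 * ∑ s ∈ Finset.Icc (-(S : ℤ)) S, ∑ k ∈ MM K, F a s k)) :=
          mul_le_mul_of_nonneg_left k4 (hh0 a)
      _ = _ := by
          simp only [Finset.mul_sum]
          refine Finset.sum_congr rfl fun s _ => Finset.sum_congr rfl fun k _ => ?_
          ring
  -- integration
  have hint : ∫ a in (-5 : ℝ)..5, h a * ∫ b' in (-5 : ℝ)..5, KB T X X₀ M M₀ N a b' ≤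
      C2 * E ^ 2 / T * (2 * M * D ^ 2) * ∑ s ∈ Finset.Icc (-(S : ℤ)) S, ∑ k ∈ MM K,
        ∫ a in (-5 : ℝ)..5, h a * F a s k := by
    have c1 : Continuous fun a => h a * ∫ b' in (-5 : ℝ)..5, KB T X X₀ M M₀ N a b' :=
      hhc.mul (intervalIntegral.continuous_parametric_intervalIntegral_of_continuous'
        (OFC_KB_cont T X X₀ M M₀ N) _ _)
    have c2 : Continuous fun a => C2 * E ^ 2 / T * (2 * M * D ^ 2) *
        ∑ s ∈ Finset.Icc (-(S : ℤ)) S, ∑ k ∈ MM K, h a * F a s k :=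
      continuous_const.mul (continuous_finsetSum _ fun s _ => continuous_finsetSum _ fun k _ =>
        hFc s k)
    have k1 := intervalIntegral.integral_mono_on (μ := volume) (by norm_num : (-5 : ℝ) ≤ 5)
      (c1.intervalIntegrable (-5) 5) (c2.intervalIntegrable (-5) 5) hpt
    refine k1.trans (le_of_eq ?_)
    rw [intervalIntegral.integral_const_mul]
    congr 1
    rw [intervalIntegral.integral_finsetSum fun s _ =>
      (continuous_finsetSum _ fun k _ => hFc s k).intervalIntegrable _ _]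
    refine Finset.sum_congr rfl fun s _ => ?_
    rw [intervalIntegral.integral_finsetSum fun k _ => (hFc s k).intervalIntegrable _ _]
  -- the sums over `s`, `k`
  have hsum : ∑ s ∈ Finset.Icc (-(S : ℤ)) S, ∑ k ∈ MM K, ∫ a in (-5 : ℝ)..5, h a * F a s k ≤
      (1 + Real.log S) ^ 2 * (16 * C3 * C5 * ∑ t ∈ W, ‖f t‖ ^ 2 +
        8 * C4 * (N / (X₀ * NP)) * Y) := by
    have k1 := H3 NP S K Λ h hNP hΛpos hhc hh0
    have k2 := H4 NP S K Λ h Y hNP hS1 hΛpos hhc hh0 hY hYr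
    have k3 := H5 W f hSep
    have k4 : C3 / Λ ^ 2 ≤ 16 * C3 := by
      rw [div_le_iff₀ (by positivity), hΛ]
      have : (1 : ℝ) ≤ 16 * (X₀ / (4 * N)) ^ 2 := by
        rw [div_pow, mul_div_assoc', le_div_iff₀ (by positivity)]
        nlinarith
      nlinarith
    have k5 : C3 / Λ ^ 2 * (1 + Real.log S) * (∫ a in (-5 : ℝ)..5, h a) ≤
        16 * C3 * (1 + Real.log S) ^ 2 * (C5 * ∑ t ∈ W, ‖f t‖ ^ 2) := by
      have i1 : 0 ≤ ∫ a in (-5 : ℝ)..5, h a :=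
        intervalIntegral.integral_nonneg (by norm_num) fun x _ => hh0 x
      have i2 : (1 + Real.log S) ≤ (1 + Real.log S) ^ 2 := by nlinarith
      refine mul_le_mul (mul_le_mul k4 i2 (by linarith) (by positivity)) k3 i1 (by positivity)
    have e2 : C4 * (1 + Real.log S) ^ 2 / (Λ * NP) * Y =
        (1 + Real.log S) ^ 2 * (4 * C4 * (N / (X₀ * NP)) * Y) := by
      rw [hΛ]
      field_simp
    calc _ ≤ _ := k1
      _ ≤ 16 * C3 * (1 + Real.log S) ^ 2 * (C5 * ∑ t ∈ W, ‖f t‖ ^ 2) +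
          2 * (C4 * (1 + Real.log S) ^ 2 / (Λ * NP) * Y) :=
          add_le_add k5 (mul_le_mul_of_nonneg_left k2 (by norm_num))
      _ = _ := by
          rw [e2]
          ring
  -- the end
  have hA := H1 T X X₀ M M₀ N b W f hT0 hX0.le hN hb
  have hB := hint.trans (mul_le_mul_of_nonneg_left hsum (by positivity))
  rw [hSR] at hB
  exact hA.trans (OFC_real C1 C2 C3 C4 C5 T E D X X₀ M N NP (Real.log (8 * M * N))
    (∑ t ∈ W, ‖f t‖ ^ 2) Y _ hC1.le hC2.le hC3.le hC4.le hC5.le hT0 hX0 (by linarith)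
    (by linarith) (by linarith) (Finset.sum_nonneg fun t _ => by positivity) hY hB)

end Pool.Agent.NF
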